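import Pool.Agent.MP_bd94e8_al.H44B.RawD

/-!
The main theorem for raw problems.
-/

set_option autoImplicit false
set_option linter.unusedSectionVars false

namespace Pool.Agent.MP_bd94e8_al.H89

open Module Function Polynomial

namespace RawA

section
variable {C0 k F Pt : Type} [CommRing C0] [Field k] [Field F] [Algebra k F] [Algebra C0 F]
  [Fintype Pt] [DecidableEq Pt]

theorem act_one {V : Type} [AddCommGroup V] [Module F V] (u : Pt → V) :
    act (1 : Matrix Pt Pt F) u = u := by
  ext q
  simp [act, Matrix.one_apply]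

theorem conn_conj {B B' : Set (Matrix Pt Pt F)} {g g' : Matrix Pt Pt F} (h1 : g * g' = 1)
    (h2 : g' * g = 1) (hB : ∀ b ∈ B, g * b * g' ∈ B') (h : Conn C0 B) : Conn C0 B' := by
  intro V _ _ _ _ _ hcomp U hU hK n
  let U0 : AddSubgroup (Pt → V) :=
    { carrier := {u | act g u ∈ U}
      add_mem' := fun {x y} hx hy => by
        have := U.add_mem hx hy
        change act g (x + y) ∈ U
        convert this using 1
        ext q
        simp [act, Finset.sum_add_distrib]
      zero_mem' := by
        have := U.zero_mem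
        change act g 0 ∈ U
        convert this using 1
        ext q
        simp [act]
      neg_mem' := fun {x} hx => by
        have := U.neg_mem hx
        change act g (-x) ∈ U
        convert this using 1
        ext q
        simp [act] }
  obtain ⟨D, hD1, hD2⟩ := h V hcomp U0 (fun b hb u hu => by
      have := hU _ (hB b hb) _ hu
      change act g (act b u) ∈ U
      rwa [← act_mul, mul_assoc, h2, mul_one, act_mul] at this) (fun c u hu => by
      have := hK c _ hu
      change act g (c • u) ∈ U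
      convert this using 1
      ext q
      simp only [act, Finset.smul_sum, Pi.smul_apply]
      exact Finset.sum_congr rfl fun x _ => smul_comm _ _ _) n
  refine ⟨D, hD1, fun u hu => ?_⟩
  have h3 : act g (fun p => D (act g' u p)) ∈ U := hD2 (act g' u) (by
    change act g (act g' u) ∈ U
    rwa [← act_mul, h1, act_one])
  rwa [act_lin, ← act_mul, h1, act_one] at h3

theorem final [IsArtinianRing C0] [Algebra C0 k] [IsScalarTower C0 k F] [Module.Finite C0 F]
    [IsPurelyInseparable k F] (hrig : SRig) (hconj : SConj) (hmain : SMain')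
    (B : Subalgebra k (Matrix Pt Pt F)) {ι : Type} [Fintype ι] {e : ι → Matrix Pt Pt F}
    (he : Fam (B : Set (Matrix Pt Pt F)) e) (hc : Conn C0 (B : Set (Matrix Pt Pt F)))
    (h : ∀ i, (∀ b ∈ B, e i * b = b → b * e i = b →
        ∃ (r : ℕ) (c : k), IsNilpotent (b ^ (ringExpChar k ^ r) - c • e i)) ∧
      ∀ b ∈ B, e i * b = b → b * e i = b → ∀ b' ∈ B, e i * b' = b' → b' * e i = b' →
        IsNilpotent (b * b' - b' * b)) : (Prob.triv B).Bnd := by
  have : FiniteDimensional k F := Module.Finite.of_restrictScalars_finite C0 k F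
  obtain ⟨vt, g, g', g1, g2, hd⟩ := he.diag
  obtain ⟨c1, c2⟩ := hconj k F Pt Unit (Prob.triv B)
  obtain ⟨P', hP'⟩ := c1 g g' g1 g2 (fun _ _ _ => rfl) fun _ _ _ => rfl
  let φ : Matrix Pt Pt F →+* Matrix Pt Pt F :=
    { toFun := fun x => g * x * g'
      map_one' := by rw [mul_one, g1]
      map_mul' := fun x y => by
        rw [mul_assoc (g * x), ← mul_assoc g', ← mul_assoc g', g2, one_mul]
        simp only [mul_assoc]
      map_zero' := by simp
      map_add' := fun x y => by rw [mul_add, add_mul] }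
  have hφ : ∀ x, φ x = g * x * g' := fun _ => rfl
  have hinv : ∀ x, g' * φ x * g = x := fun x => by
    rw [hφ, ← mul_assoc, ← mul_assoc, g2, one_mul, mul_assoc, g2, mul_one]
  have hsur : ∀ y, φ (g' * y * g) = y := fun y => by
    rw [hφ, ← mul_assoc, ← mul_assoc, g1, one_mul, mul_assoc, g1, mul_one]
  have hinj : Injective φ := fun x y e => by rw [← hinv x, e, hinv]
  have hmem : ∀ x ∈ B, φ x ∈ P'.B := fun x hx => (hP'.mem _).2 (by rw [hinv]; exact hx)
  let Q : Prob k F Pt ι Unit :=
    { vt := vt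
      pk := fun _ => ()
      B := P'.B
      idem := fun i => hd i ▸ hmem _ (he.mem i)
      peak := fun _ _ _ _ _ => rfl }
  have hQe : ∀ i, Q.e i = φ (e i) := fun i => (hd i).symm
  have hee : ∀ i, Q.e i * Q.e i = Q.e i := fun i => by rw [hQe, ← map_mul, he.idem]
  have hH : ∀ i, ∀ b ∈ Q.H i i, ∃ x ∈ B, e i * x = x ∧ x * e i = x ∧ φ x = b := by
    intro i b hb
    have h1 : b = Q.e i * b * Q.e i := by
      rw [← Q.blk_eq]
      ext q p
      by_cases h0 : b q p = 0
      · by_cases h' : Q.vt p = i ∧ Q.vt q = i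
        · rw [Q.blk_pos _ h'.1 h'.2]
        · rw [Q.blk_neg _ h', h0]
      · rw [Q.blk_pos _ (hb.2 q p h0).1 (hb.2 q p h0).2]
    refine ⟨g' * b * g, (hP'.mem b).1 hb.1, hinj ?_, hinj ?_, hsur b⟩
    · rw [map_mul, hsur, ← hQe, h1, ← mul_assoc, ← mul_assoc, hee]
    · rw [map_mul, hsur, ← hQe, h1, mul_assoc, hee]
  refine (c2 P' g g' hP').1 (bnd_of_eq (P := Q) rfl (hmain k F Pt ι Q (fun i b hb => ?_)
    (fun i b hb b' hb' => ?_) (hrig C0 k F Pt _ (conn_conj g1 g2 hmem hc))))
  · obtain ⟨x, hx, e1, e2, rfl⟩ := hH i b hb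
    obtain ⟨r, c, hn⟩ := (h i).1 x hx e1 e2
    refine ⟨r, c, ?_⟩
    have := hn.map φ
    rwa [map_sub, map_pow, hφ (c • e i), mul_smul_comm, smul_mul_assoc, ← hφ, ← hQe] at this
  · obtain ⟨x, hx, e1, e2, rfl⟩ := hH i b hb
    obtain ⟨x', hx', e1', e2', rfl⟩ := hH i b' hb'
    have := ((h i).2 x hx e1 e2 x' hx' e1' e2').map φ
    rwa [map_sub, map_mul, map_mul] at this

end

/-- The statement for families of `m` idempotents. -/
def TT (C0 Pt : Type) [CommRing C0] [Fintype Pt] [DecidableEq Pt] (m : ℕ) : Prop :=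
  ∀ (k F : Type) [Field k] [Field F] [Algebra C0 k] [Algebra k F] [Algebra C0 F]
    [IsScalarTower C0 k F] [Module.Finite C0 F] [IsPurelyInseparable k F]
    (B : Subalgebra k (Matrix Pt Pt F)) (ι : Type) [Fintype ι] (e : ι → Matrix Pt Pt F),
    Fintype.card ι = m → Fam (B : Set (Matrix Pt Pt F)) e →
    Conn C0 (B : Set (Matrix Pt Pt F)) → (Prob.triv B).Bnd

theorem step_sep (h2 : SKS2) (hd : SDec) {C0 k F Pt : Type} [CommRing C0] [Field k] [Field F]
    [Algebra C0 k] [Algebra k F] [Algebra C0 F] [IsScalarTower C0 k F] [Module.Finite C0 F]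
    [IsPurelyInseparable k F] [Fintype Pt] [DecidableEq Pt] {B : Subalgebra k (Matrix Pt Pt F)}
    {ι : Type} [Fintype ι] {e : ι → Matrix Pt Pt F} (he : Fam (B : Set (Matrix Pt Pt F)) e)
    (hc : Conn C0 (B : Set (Matrix Pt Pt F))) (ih : TT C0 Pt (Fintype.card ι + 1)) (i : ι)
    {b : Matrix Pt Pt F} (hb : b ∈ B) (e1 : e i * b = b) (e2 : b * e i = b) {g : k[X]}
    (hm : g.Monic) (hi : Irreducible g) (hs : g.Separable) (hdeg : 2 ≤ g.natDegree)
    (hn : IsNilpotent (aeval b g * e i)) : (Prob.triv B).Bnd := by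
  have : FiniteDimensional k F := Module.Finite.of_restrictScalars_finite C0 k F
  have hiF : Irreducible (g.map (algebraMap k F)) :=
    hs.map_irreducible_of_isPurelyInseparable F hi
  have hmF : (g.map (algebraMap k F)).Monic := hm.map _
  have : Fact (Irreducible (g.map (algebraMap k F))) := ⟨hiF⟩
  let F' := AdjoinRoot (g.map (algebraMap k F))
  let θ : F' := AdjoinRoot.root _
  have hθ : aeval θ g = 0 := by
    rw [← aeval_map_algebraMap F θ g, AdjoinRoot.aeval_eq, AdjoinRoot.mk_self]
  have hint : IsIntegral k θ := ⟨g, hm, hθ⟩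
  let k' : IntermediateField k F' := IntermediateField.adjoin k {θ}
  have hθk : θ ∈ k' := IntermediateField.mem_adjoin_simple_self k θ
  have : FiniteDimensional F F' := (AdjoinRoot.powerBasis hmF.ne_zero).finite
  have : Module.Finite k k' := IntermediateField.adjoin.finiteDimensional hint
  have : Algebra.IsSeparable k k' :=
    (IntermediateField.isSeparable_adjoin_simple_iff_isSeparable k F').2
      (hs.of_dvd (minpoly.dvd k θ hθ))
  have : Module.Finite C0 F' := Module.Finite.trans F F'
  have hgen : ∀ S : Subalgebra F F', (∀ c : k', algebraMap k' F' c ∈ S) → S = ⊤ := fun S hS => by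
    rw [eq_top_iff, ← AdjoinRoot.adjoinRoot_eq_top]
    exact Algebra.adjoin_le (Set.singleton_subset_iff.2 (hS ⟨θ, hθk⟩))
  have : IsPurelyInseparable k' F' := by
    have : ExpChar k' (ringExpChar k) :=
      expChar_of_injective_ringHom (algebraMap k k').injective _
    rw [isPurelyInseparable_iff_perfectClosure_eq_top, eq_top_iff]
    let S : Subalgebra F F' :=
      { (perfectClosure k' F').toSubalgebra.toSubsemiring with
        algebraMap_mem' := fun a => by
          obtain ⟨n, y, hy⟩ := IsPurelyInseparable.pow_mem k (ringExpChar k) a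
          refine (mem_perfectClosure_iff_pow_mem (ringExpChar k)).2 ⟨n, algebraMap k k' y, ?_⟩
          rw [← map_pow, ← hy, ← IsScalarTower.algebraMap_apply,
            ← IsScalarTower.algebraMap_apply] }
    have hS : S = ⊤ := hgen S fun c => (perfectClosure k' F').algebraMap_mem c
    intro x _
    have : x ∈ S := hS ▸ Algebra.mem_top
    exact this
  let lam : F' →ₗ[F] F := lcoeff F 0 ∘ₗ AdjoinRoot.modByMonicHom hmF
  have hlam : ∀ p : k[X], lam (aeval θ p) = algebraMap k F ((p %ₘ g).coeff 0) := fun p => by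
    rw [← aeval_map_algebraMap F θ p, AdjoinRoot.aeval_eq]
    change (AdjoinRoot.modByMonicHom hmF (AdjoinRoot.mk _ _)).coeff 0 = _
    rw [AdjoinRoot.modByMonicHom_mk, ← map_modByMonic _ hm, coeff_map]
  have l1 : lam 1 = 1 := by
    have := hlam 1
    rw [map_one, (modByMonic_eq_self_iff hm).2 (by
      rw [degree_one]; exact natDegree_pos_iff_degree_pos.1 (by omega))] at this
    simpa using this
  have l2 : ∀ c : k', ∃ c0 : k, lam (algebraMap k' F' c) = algebraMap k F c0 := fun c => by
    have h1 : (c : F') ∈ (IntermediateField.adjoin k {θ}).toSubalgebra := c.2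
    rw [IntermediateField.adjoin_simple_toSubalgebra_of_isAlgebraic hint.isAlgebraic,
      Algebra.adjoin_singleton_eq_range_aeval] at h1
    obtain ⟨p, hp⟩ := h1
    exact ⟨_, (congrArg lam hp.symm).trans (hlam p)⟩
  obtain ⟨x, x1, x2, x3, x4, x5, x6⟩ := new_idem (k' := k') (F' := F') B (he.mem i) (he.idem i)
    (he.ne i) hb e1 e2 hm hiF hs hdeg hn ⟨θ, hθk⟩ (by
      apply (algebraMap k' F').injective
      rw [← aeval_algebraMap_apply, map_zero]
      exact hθ)
  have : IsScalarTower C0 k' F' := IsScalarTower.of_algebraMap_eq fun _ => rfl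
  obtain ⟨e', he'⟩ := (he.bc (k' := k') (F' := F')).refine i x1 x2 x3 x4 x5 x6
  exact bnd_bc h2 hd lam l1 l2 B
    (ih k' F' _ (Option ι) e' Fintype.card_option he' (conn_bc hgen B hc))

theorem step (h2 : SKS2) (hd : SDec) (hrig : SRig) (hconj : SConj) (hmain : SMain')
    {C0 Pt : Type} [CommRing C0] [IsArtinianRing C0] [Fintype Pt] [DecidableEq Pt] {m : ℕ}
    (ih : TT C0 Pt (m + 1)) : TT C0 Pt m := by
  intro k F _ _ _ _ _ _ _ _ B ι _ e hm he hc
  subst hm
  have : FiniteDimensional k F := Module.Finite.of_restrictScalars_finite C0 k F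
  have : Module.Finite k (Matrix Pt Pt F) := Module.Finite.trans F _
  by_cases hx : ∃ i, ∃ x ∈ B, x * x = x ∧ e i * x = x ∧ x * e i = x ∧ x ≠ 0 ∧ x ≠ e i
  · obtain ⟨i, x, x1, x2, x3, x4, x5, x6⟩ := hx
    obtain ⟨e', he'⟩ := he.refine i x1 x2 x3 x4 x5 x6
    exact ih k F B (Option ι) e' Fintype.card_option he' hc
  have hdi := fun i => dichM h2 B (he.mem i) (he.idem i) (he.ne i) fun x x1 x2 x3 x4 => by
    by_contra hn
    exact hx ⟨i, x, x1, x2, x3, x4, fun h => hn (Or.inl h), fun h => hn (Or.inr h)⟩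
  by_cases hs : ∃ i, ∃ b ∈ B, e i * b = b ∧ b * e i = b ∧ ∃ g : k[X], g.Monic ∧ Irreducible g ∧
      g.Separable ∧ 2 ≤ g.natDegree ∧ IsNilpotent (aeval b g * e i)
  · obtain ⟨i, b, hb, e1, e2, g, g1, g2, g3, g4, g5⟩ := hs
    exact step_sep h2 hd he hc ih i hb e1 e2 g1 g2 g3 g4 g5
  · exact final hrig hconj hmain B he hc fun i => (hdi i).resolve_right fun h => hs ⟨i, h⟩

end RawA

theorem raw : SKS1 → SKS2 → SDec → SRig → SConj → SMain' → SRaw := by
  intro _ h2 hd hrig hconj hmain C0 k F _ _ _ _ _ _ _ _ _ _ Pt _ _ B hc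
  have hall : ∀ n m, Fintype.card Pt < m + n → RawA.TT C0 Pt m := by
    intro n
    induction n with
    | zero =>
      intro m hm k F _ _ _ _ _ _ _ _ B ι _ e h he _
      have := he.card_le
      omega
    | succ n ih => exact fun m hm => RawA.step h2 hd hrig hconj hmain (ih (m + 1) (by omega))
  by_cases h1 : (1 : Matrix Pt Pt F) = 0
  · exact hall (Fintype.card Pt + 1) _ (by omega) k F B Empty Empty.elim rfl
      ⟨fun i => i.elim, fun i => i.elim, fun i => i.elim, fun i => i.elim, by simp [h1]⟩ hc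
  · exact hall (Fintype.card Pt + 1) _ (by omega) k F B Unit (fun _ => 1) rfl
      ⟨fun _ => B.one_mem, fun _ => h1, fun _ => one_mul _, fun _ _ h => (h rfl).elim, by simp⟩ hc

end Pool.Agent.MP_bd94e8_al.H89
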