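import Pool.Agent.MP_bd94e8_al.H89.Spec

/-!
Algebras without idempotents: purely inseparable, or a separable polynomial of degree at least two.
-/

set_option autoImplicit false

namespace Pool.Agent.MP_bd94e8_al.H89.RawA

open Module Function Polynomial

theorem comm_of_pi {k D : Type} [Field k] [DivisionRing D] [Algebra k D]
    (h : ∀ x : D, ∃ (r : ℕ) (c : k), x ^ (ringExpChar k ^ r) = algebraMap k D c) (x y : D) :
    x * y = y * x := by
  have hc : ∀ c : k, algebraMap k D c ∈ Subring.center D := fun c =>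
    Subring.mem_center_iff.2 fun z => (Algebra.commutes c z).symm
  have : ExpChar (Subring.center D) (ringExpChar k) :=
    expChar_of_injective_ringHom (f := (algebraMap k D).codRestrict (Subring.center D) hc)
      (RingHom.injective _) _
  have hp : ∀ x : D, ∃ n : ℕ, x ^ ringExpChar k ^ n ∈ (algebraMap (Subring.center D) D).range := by
    intro x
    obtain ⟨r, c, e⟩ := h x
    exact ⟨r, ⟨_, hc c⟩, e.symm⟩
  have : Algebra.IsAlgebraic (Subring.center D) D := ⟨fun x => by
    obtain ⟨r, z, e⟩ := hp x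
    refine ⟨X ^ (ringExpChar k ^ r) - C z,
      (monic_X_pow_sub_C z (expChar_pow_pos k _ r).ne').ne_zero, ?_⟩
    simp [e]⟩
  have htop : Subring.center D = ⊤ := by
    by_contra hne
    obtain ⟨z, hz, hs⟩ := JacobsonNoether.exists_separable_and_not_isCentral D hne
    have h1 := (minpoly.natSepDegree_eq_one_iff_pow_mem (ringExpChar k)).2 (hp z)
    rw [Separable.natSepDegree_eq_natDegree hs, minpoly.natDegree_eq_one_iff] at h1
    obtain ⟨w, rfl⟩ := h1
    exact hz w.2
  have : y ∈ Subring.center D := htop ▸ Subring.mem_top y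
  exact Subring.mem_center_iff.1 this x

theorem dich_div {k D : Type} [Field k] [DivisionRing D] [Algebra k D] [Module.Finite k D] (x : D) :
    (∃ (r : ℕ) (c : k), x ^ (ringExpChar k ^ r) = algebraMap k D c) ∨
      ∃ (r : ℕ) (g : k[X]), g.Monic ∧ Irreducible g ∧ g.Separable ∧ 2 ≤ g.natDegree ∧
        aeval (x ^ (ringExpChar k ^ r)) g = 0 := by
  have hi : IsIntegral k x := IsIntegral.of_finite k x
  obtain ⟨g, hs, r, e⟩ := (minpoly.irreducible hi).hasSeparableContraction (ringExpChar k)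
  have hm : g.Monic := (monic_expand_iff (expChar_pow_pos k _ r)).1 (e ▸ minpoly.monic hi)
  have hir : Irreducible g :=
    of_irreducible_expand_pow (expChar_pos k _).ne' (e ▸ minpoly.irreducible hi)
  have h0 : aeval (x ^ (ringExpChar k ^ r)) g = 0 := by
    rw [← expand_aeval, e, minpoly.aeval]
  by_cases h2 : 2 ≤ g.natDegree
  · exact Or.inr ⟨r, g, hm, hir, hs, h2, h0⟩
  · have h1 : g.natDegree = 1 := by have := hir.natDegree_pos; omega
    rw [hm.eq_X_add_C h1] at h0
    refine Or.inl ⟨r, -g.coeff 0, ?_⟩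
    rw [map_neg, eq_neg_iff_add_eq_zero]
    simpa using h0

theorem local_facts (h2 : SKS2) {k E : Type} [Field k] [Ring E] [Algebra k E] [Module.Finite k E]
    (hid : ∀ x : E, x * x = x → x = 0 ∨ x = 1) :
    (∀ x : E, IsNilpotent x ∨ IsUnit x) ∧
    (∀ x y : E, IsNilpotent x → IsNilpotent y → IsNilpotent (x + y)) ∧
    ∀ x y : E, IsNilpotent x → IsNilpotent (x * y) ∧ IsNilpotent (y * x) := by
  have hinj : Injective (Algebra.lmul k E) := Algebra.lmul_injective
  have hn : ∀ x : E, IsNilpotent (Algebra.lmul k E x) ↔ IsNilpotent x := fun x =>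
    IsNilpotent.map_iff (f := Algebra.lmul k E) hinj
  obtain ⟨a1, a2, a3, -⟩ := h2 k k E (Algebra.lmul k E).range.toSubring
    (fun c => ⟨algebraMap k E c, by
      change Algebra.lmul k E (algebraMap k E c) = _
      rw [AlgHom.commutes, Algebra.algebraMap_eq_smul_one]; simp⟩)
    (by
      rintro _ ⟨x, rfl⟩ hx
      change Algebra.lmul k E x * Algebra.lmul k E x = Algebra.lmul k E x at hx
      rw [← map_mul] at hx
      rcases hid x (hinj hx) with rfl | rfl
      · exact Or.inl (map_zero _)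
      · exact Or.inr (map_one _))
  refine ⟨fun x => ?_, fun x y hx hy => ?_, fun x y hx => ?_⟩
  · rcases a1 _ ⟨x, rfl⟩ with h | ⟨_, ⟨y, rfl⟩, e1, e2⟩
    · exact Or.inl ((hn x).1 h)
    · refine Or.inr ⟨⟨x, y, hinj ?_, hinj ?_⟩, rfl⟩
      · rw [map_mul, map_one]; exact e2
      · rw [map_mul, map_one]; exact e1
  · rw [← hn, map_add]
    exact a2 _ ⟨x, rfl⟩ _ ⟨y, rfl⟩ ((hn x).2 hx) ((hn y).2 hy)
  · rw [← hn, ← hn, map_mul, map_mul]
    exact a3 _ ⟨x, rfl⟩ _ ⟨y, rfl⟩ ((hn x).2 hx)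

theorem dich (h2 : SKS2) {k E : Type} [Field k] [Ring E] [Algebra k E] [Module.Finite k E]
    [Nontrivial E] (hid : ∀ x : E, x * x = x → x = 0 ∨ x = 1) :
    ((∀ b : E, ∃ (r : ℕ) (c : k), IsNilpotent (b ^ (ringExpChar k ^ r) - algebraMap k E c)) ∧
      ∀ b b' : E, IsNilpotent (b * b' - b' * b)) ∨
    ∃ (b : E) (g : k[X]), g.Monic ∧ Irreducible g ∧ g.Separable ∧ 2 ≤ g.natDegree ∧
      IsNilpotent (aeval b g) := by
  obtain ⟨a1, a2, a3⟩ := local_facts (k := k) h2 hid
  let N : Ideal E :=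
    { carrier := {x | IsNilpotent x}
      add_mem' := fun {x y} hx hy => a2 x y hx hy
      zero_mem' := IsNilpotent.zero
      smul_mem' := fun c x hx => (a3 x c hx).2 }
  have : N.IsTwoSided := ⟨fun {x} y hx => (a3 x y hx).1⟩
  have hz : ∀ x : E, Ideal.Quotient.mkₐ k N x = 0 ↔ IsNilpotent x := fun x =>
    Ideal.Quotient.eq_zero_iff_mem
  have hsurj : Surjective (Ideal.Quotient.mkₐ k N) := Ideal.Quotient.mkₐ_surjective k N
  have : Nontrivial (E ⧸ N) := ⟨1, 0, fun h => not_isNilpotent_one ((hz 1).1 (by rw [map_one, h]))⟩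
  have hu : ∀ a : E ⧸ N, IsUnit a ∨ a = 0 := by
    intro a
    obtain ⟨x, rfl⟩ := hsurj a
    rcases a1 x with h | h
    · exact Or.inr ((hz x).2 h)
    · exact Or.inl (h.map _)
  let _ : DivisionRing (E ⧸ N) := DivisionRing.ofIsUnitOrEqZero hu
  have : Module.Finite k (E ⧸ N) :=
    Module.Finite.of_surjective (Ideal.Quotient.mkₐ k N).toLinearMap hsurj
  by_cases h : ∀ x : E ⧸ N, ∃ (r : ℕ) (c : k), x ^ (ringExpChar k ^ r) = algebraMap k _ c
  · refine Or.inl ⟨fun b => ?_, fun b b' => ?_⟩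
    · obtain ⟨r, c, e⟩ := h (Ideal.Quotient.mkₐ k N b)
      refine ⟨r, c, (hz _).1 ?_⟩
      rw [map_sub, map_pow, AlgHom.commutes, sub_eq_zero]
      exact e
    · refine (hz _).1 ?_
      rw [map_sub, map_mul, map_mul, sub_eq_zero]
      exact comm_of_pi h _ _
  · obtain ⟨x, hx⟩ := not_forall.1 h
    obtain ⟨b, rfl⟩ := hsurj x
    obtain ⟨r, g, g1, g2, g3, g4, g5⟩ := (dich_div (k := k) _).resolve_left hx
    refine Or.inr ⟨b ^ (ringExpChar k ^ r), g, g1, g2, g3, g4, (hz _).1 ?_⟩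
    rw [← aeval_algHom_apply, map_pow]
    exact g5

end Pool.Agent.MP_bd94e8_al.H89.RawA
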