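import Pool.Agent.MP_bd94e8_al.H44B.RawA

/-!
Corners, refinement and diagonalisation of families of idempotents.
-/

set_option autoImplicit false

namespace Pool.Agent.MP_bd94e8_al.H89.RawA

open Module Function Polynomial

section corner
variable {k R : Type} [Field k] [Ring R] [Algebra k R]

/-- The corner of a subalgebra, without unit. -/
def corS (B : Subalgebra k R) (e : R) : NonUnitalSubalgebra k R where
  carrier := {b | b ∈ B ∧ e * b = b ∧ b * e = b}
  add_mem' := fun {a b} ha hb => ⟨B.add_mem ha.1 hb.1, by rw [mul_add, ha.2.1, hb.2.1],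
    by rw [add_mul, ha.2.2, hb.2.2]⟩
  zero_mem' := ⟨B.zero_mem, mul_zero _, zero_mul _⟩
  mul_mem' := fun {a b} ha hb => ⟨B.mul_mem ha.1 hb.1, by rw [← mul_assoc, ha.2.1],
    by rw [mul_assoc, hb.2.2]⟩
  smul_mem' := fun c b hb => ⟨B.smul_mem hb.1 c, by rw [mul_smul_comm, hb.2.1],
    by rw [smul_mul_assoc, hb.2.2]⟩

/-- The corner as a type. -/
def Cor (B : Subalgebra k R) (e : R) (_h : e ∈ B ∧ e * e = e) : Type := corS B e

variable {B : Subalgebra k R} {e : R} {h : e ∈ B ∧ e * e = e}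

instance : Ring (Cor B e h) where
  __ : NonUnitalRing (Cor B e h) := inferInstanceAs (NonUnitalRing (corS B e))
  one := ⟨e, h.1, h.2, h.2⟩
  one_mul x := Subtype.ext x.2.2.1
  mul_one x := Subtype.ext x.2.2.2

instance : Module k (Cor B e h) := inferInstanceAs (Module k (corS B e))

instance : Algebra k (Cor B e h) :=
  Algebra.ofModule (fun c x y => Subtype.ext (smul_mul_assoc c x.1 y.1))
    (fun c x y => Subtype.ext (mul_smul_comm c x.1 y.1))

/-- The inclusion of the corner. -/
def cv : Cor B e h →ₗ[k] R where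
  toFun x := x.1
  map_add' _ _ := rfl
  map_smul' _ _ := rfl

theorem cv_inj : Injective (cv : Cor B e h → R) := Subtype.val_injective

theorem cv_mul (x y : Cor B e h) : cv (x * y) = cv x * cv y := rfl

theorem cv_one : cv (1 : Cor B e h) = e := rfl

theorem cv_e (x : Cor B e h) : cv x * e = cv x := x.2.2.2

theorem e_cv (x : Cor B e h) : e * cv x = cv x := x.2.2.1

theorem cv_pow (x : Cor B e h) (n : ℕ) : cv (x ^ n) = cv x ^ n * e := by
  induction n with
  | zero => rw [pow_zero, pow_zero, one_mul, cv_one]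
  | succ n ih => rw [pow_succ, cv_mul, ih, pow_succ, mul_assoc, e_cv, mul_assoc, cv_e]

theorem cv_pow' (x : Cor B e h) {n : ℕ} (hn : 0 < n) : cv (x ^ n) = cv x ^ n := by
  obtain ⟨m, rfl⟩ : ∃ m, n = m + 1 := ⟨n - 1, by omega⟩
  rw [cv_pow, pow_succ, mul_assoc, cv_e]

theorem cv_nil {x : Cor B e h} (hx : IsNilpotent x) : IsNilpotent (cv x) := by
  obtain ⟨n, hn⟩ := hx
  refine ⟨n + 1, ?_⟩
  rw [← cv_pow' x n.succ_pos, pow_succ, hn, zero_mul, map_zero]

theorem cv_alg (c : k) : cv (algebraMap k (Cor B e h) c) = c • e := by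
  rw [Algebra.algebraMap_eq_smul_one, map_smul, cv_one]

theorem cv_aeval (x : Cor B e h) (g : k[X]) : cv (aeval x g) = aeval (cv x) g * e := by
  induction g using Polynomial.induction_on' with
  | add p q hp hq => rw [map_add, map_add, hp, hq, map_add, add_mul]
  | monomial n a =>
    rw [aeval_monomial, aeval_monomial, ← Algebra.smul_def, ← Algebra.smul_def, map_smul, cv_pow,
      smul_mul_assoc]

theorem dichM (h2 : SKS2) [Module.Finite k R] (B : Subalgebra k R) {e : R} (hB : e ∈ B)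
    (he : e * e = e) (h0 : e ≠ 0)
    (hid : ∀ x ∈ B, x * x = x → e * x = x → x * e = x → x = 0 ∨ x = e) :
    ((∀ b ∈ B, e * b = b → b * e = b →
        ∃ (r : ℕ) (c : k), IsNilpotent (b ^ (ringExpChar k ^ r) - c • e)) ∧
      ∀ b ∈ B, e * b = b → b * e = b → ∀ b' ∈ B, e * b' = b' → b' * e = b' →
        IsNilpotent (b * b' - b' * b)) ∨
    ∃ b ∈ B, e * b = b ∧ b * e = b ∧ ∃ g : k[X], g.Monic ∧ Irreducible g ∧ g.Separable ∧
      2 ≤ g.natDegree ∧ IsNilpotent (aeval b g * e) := by
  have : Module.Finite k (Cor B e ⟨hB, he⟩) := Module.Finite.of_injective cv cv_inj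
  have : Nontrivial (Cor B e ⟨hB, he⟩) := ⟨1, 0, fun h => h0 (congrArg cv h)⟩
  rcases dich (k := k) (E := Cor B e ⟨hB, he⟩) h2 (fun x hx =>
    (hid (cv x) x.2.1 (congrArg cv hx) (e_cv x) (cv_e x)).imp (fun h => cv_inj h)
      fun h => cv_inj h) with ⟨a1, a2⟩ | ⟨b, g, g1, g2, g3, g4, g5⟩
  · refine Or.inl ⟨fun b hb e1 e2 => ?_, fun b hb e1 e2 b' hb' e1' e2' => ?_⟩
    · obtain ⟨x, rfl⟩ : ∃ x : Cor B e ⟨hB, he⟩, cv x = b := ⟨⟨b, hb, e1, e2⟩, rfl⟩
      obtain ⟨r, c, hn⟩ := a1 x
      refine ⟨r, c, ?_⟩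
      have := cv_nil hn
      rwa [map_sub, cv_pow' _ (expChar_pow_pos k _ r), cv_alg] at this
    · exact cv_nil (a2 ⟨b, hb, e1, e2⟩ ⟨b', hb', e1', e2'⟩)
  · refine Or.inr ⟨cv b, b.2.1, e_cv b, cv_e b, g, g1, g2, g3, g4, ?_⟩
    rw [← cv_aeval]
    exact cv_nil g5

end corner

/-- A complete family of nonzero orthogonal idempotents in the set `B`. -/
structure Fam {R ι : Type} [Ring R] [Fintype ι] (B : Set R) (e : ι → R) : Prop where
  mem : ∀ i, e i ∈ B
  ne : ∀ i, e i ≠ 0
  idem : ∀ i, e i * e i = e i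
  orth : ∀ i j, i ≠ j → e i * e j = 0
  sum : ∑ i, e i = 1

theorem Fam.refine {k R ι : Type} [Field k] [Ring R] [Algebra k R] [Fintype ι]
    {B : Subalgebra k R} {e : ι → R} (h : Fam (B : Set R) e) (i : ι) {x : R} (hx : x ∈ B)
    (hxx : x * x = x) (h1 : e i * x = x) (h2 : x * e i = x) (h3 : x ≠ 0) (h4 : x ≠ e i) :
    ∃ e' : Option ι → R, Fam (B : Set R) e' := by
  classical
  have a1 : ∀ j, j ≠ i → x * e j = 0 := fun j hj => by
    rw [← h2, mul_assoc, h.orth i j hj.symm, mul_zero]
  have a2 : ∀ j, j ≠ i → e j * x = 0 := fun j hj => by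
    rw [← h1, ← mul_assoc, h.orth j i hj, zero_mul]
  refine ⟨fun o => o.elim x fun j => if j = i then e i - x else e j, ?_, ?_, ?_, ?_, ?_⟩
  · rintro (_ | j)
    · exact hx
    · by_cases hj : j = i
      · simpa [hj] using B.sub_mem (h.mem i) hx
      · simpa [hj] using h.mem j
  · rintro (_ | j)
    · exact h3
    · by_cases hj : j = i
      · simpa [hj, sub_eq_zero] using h4.symm
      · simpa [hj] using h.ne j
  · rintro (_ | j)
    · exact hxx
    · by_cases hj : j = i
      · simp [hj, mul_sub, sub_mul, h.idem, h1, h2, hxx]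
      · simpa [hj] using h.idem j
  · rintro (_ | j) (_ | l) hne
    · exact (hne rfl).elim
    · by_cases hl : l = i
      · simp [hl, mul_sub, h2, hxx]
      · simpa [hl] using a1 l hl
    · by_cases hj : j = i
      · simp [hj, sub_mul, h1, hxx]
      · simpa [hj] using a2 j hj
    · have hjl : j ≠ l := fun e => hne (congrArg some e)
      by_cases hj : j = i
      · have hl : l ≠ i := fun e => hjl (hj.trans e.symm)
        simp [hj, hl, sub_mul, a1 l hl, h.orth i l hl.symm]
      · by_cases hl : l = i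
        · simp [hj, hl, mul_sub, a2 j hj, h.orth j i hj]
        · simpa [hj, hl] using h.orth j l hjl
  · rw [Fintype.sum_option, ← h.sum, ← Finset.add_sum_erase _ _ (Finset.mem_univ i),
      ← Finset.add_sum_erase _ e (Finset.mem_univ i)]
    simp only [Option.elim, if_true]
    rw [← add_assoc, add_sub_cancel]
    congr 1
    exact Finset.sum_congr rfl fun j hj => if_neg (Finset.ne_of_mem_erase hj)

section mat
variable {F Pt ι : Type} [Field F] [Fintype Pt] [DecidableEq Pt] [Fintype ι]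
  {B : Set (Matrix Pt Pt F)} {e : ι → Matrix Pt Pt F}

open Matrix

theorem exists_vec {a : Matrix Pt Pt F} (h : a ≠ 0) : ∃ v : Pt → F, a *ᵥ v ≠ 0 := by
  by_contra hc
  push Not at hc
  apply h
  ext q p
  simpa using congrFun (hc (Pi.single p 1)) q

theorem Fam.card_le (h : Fam B e) : Fintype.card ι ≤ Fintype.card Pt := by
  classical
  choose v hv using fun i => exists_vec (h.ne i)
  have hli : LinearIndependent F fun i => e i *ᵥ v i := by
    rw [Fintype.linearIndependent_iff]
    intro c hc i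
    have := congrArg (fun w => e i *ᵥ w) hc
    simp only [mulVec_sum, mulVec_smul, mulVec_mulVec, mulVec_zero] at this
    rw [Finset.sum_eq_single i (fun j _ hj => by rw [h.orth i j hj.symm, zero_mulVec, smul_zero])
      (by simp), h.idem] at this
    exact (smul_eq_zero.1 this).resolve_right (hv i)
  simpa using hli.fintype_card_le_finrank

theorem Fam.diag (h : Fam B e) : ∃ (vt : Pt → ι) (g g' : Matrix Pt Pt F), g * g' = 1 ∧ g' * g = 1 ∧
    ∀ i, g * e i * g' = mask (fun _ p => vt p = i) 1 := by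
  classical
  obtain ⟨t, ht, hsp, hli⟩ := exists_linearIndependent F {v : Pt → F | ∃ i, e i *ᵥ v = v}
  have htop : Submodule.span F {v : Pt → F | ∃ i, e i *ᵥ v = v} = ⊤ := by
    rw [eq_top_iff]
    intro v _
    have : v = ∑ i, e i *ᵥ v := by rw [← sum_mulVec, h.sum, one_mulVec]
    rw [this]
    exact Submodule.sum_mem _ fun i _ => Submodule.subset_span ⟨i, by rw [mulVec_mulVec, h.idem]⟩
  let b0 : Basis t F (Pt → F) := Basis.mk hli (by rw [Subtype.range_coe, hsp, htop])
  let b : Basis Pt F (Pt → F) := b0.reindex (b0.indexEquiv (Pi.basisFun F Pt))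
  have hb : ∀ p, ∃ i, e i *ᵥ b p = b p := fun p => by
    have : b p ∈ t := by simp [b, b0]
    exact ht this
  choose vt hvt using hb
  have hg' : ∀ q p, (Pi.basisFun F Pt).toMatrix b q p = b p q := fun q p => by
    simp [Basis.toMatrix_apply]
  have m1 : b.toMatrix (Pi.basisFun F Pt) * (Pi.basisFun F Pt).toMatrix b = 1 := by
    rw [Basis.toMatrix_mul_toMatrix_flip]
  refine ⟨vt, b.toMatrix (Pi.basisFun F Pt), (Pi.basisFun F Pt).toMatrix b, m1,
    by rw [Basis.toMatrix_mul_toMatrix_flip], fun i => ?_⟩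
  have key : e i * (Pi.basisFun F Pt).toMatrix b =
      (Pi.basisFun F Pt).toMatrix b * mask (fun _ p => vt p = i) 1 := by
    ext q p
    have l1 : (e i * (Pi.basisFun F Pt).toMatrix b) q p = (e i *ᵥ b p) q := by
      simp [mul_apply, hg', mulVec, dotProduct]
    rw [l1, mul_apply, Finset.sum_eq_single p (fun x _ hx => by
      simp [mask_apply, one_apply_ne hx]) (by simp), hg']
    by_cases hp : vt p = i
    · rw [mask_pos (s := fun _ p => vt p = i) _ hp, ← hp, hvt]; simp
    · rw [mask_neg (s := fun _ p => vt p = i) _ hp, ← hvt p, mulVec_mulVec,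
        h.orth _ _ (Ne.symm hp)]
      simp
  rw [Matrix.mul_assoc, key, ← Matrix.mul_assoc, m1, Matrix.one_mul]

end mat

end Pool.Agent.MP_bd94e8_al.H89.RawA
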