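import Pool.Agent.MP_bd94e8_al.H44B.RawB

/-!
Base change of a problem along a separable extension.
-/

set_option autoImplicit false
set_option linter.unusedSectionVars false

namespace Pool.Agent.MP_bd94e8_al.H89.RawA

open Module Function TensorProduct

section act
variable {k F Pt V : Type} [Field k] [Field F] [Algebra k F] [Fintype Pt] [DecidableEq Pt]
  [AddCommGroup V] [Module F V]

theorem act_mul (a b : Matrix Pt Pt F) (u : Pt → V) : act (a * b) u = act a (act b u) := by
  ext q
  simp only [act, Matrix.mul_apply, Finset.sum_smul, Finset.smul_sum, mul_smul]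
  exact Finset.sum_comm

theorem act_add (a b : Matrix Pt Pt F) (u : Pt → V) : act (a + b) u = act a u + act b u := by
  ext q
  simp [act, add_smul, Finset.sum_add_distrib]

theorem act_alg (c : k) (u : Pt → V) :
    act (algebraMap k (Matrix Pt Pt F) c) u = fun p => algebraMap k F c • u p := by
  ext q
  simp [act, Matrix.algebraMap_matrix_apply]

theorem act_lin {V' : Type} [AddCommGroup V'] [Module F V'] (g : V →ₗ[F] V') (b : Matrix Pt Pt F)
    (u : Pt → V) : (fun p => g (act b u p)) = act b fun p => g (u p) := by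
  ext q
  simp [act]

theorem act_map {F' : Type} [Field F'] [Algebra F F'] [Module F' V] [IsScalarTower F F' V]
    (b : Matrix Pt Pt F) (u : Pt → V) : act (b.map (algebraMap F F')) u = act b u := by
  ext q
  simp [act]

theorem eps_id {ι : Type} {P : Prob k F Pt ι Unit} (M : Obj P V) (o : Unit) :
    M.ε o = LinearMap.id := by
  have := M.sum
  rwa [Finset.univ_unique, Finset.sum_singleton] at this

theorem smul_mem_U {ι : Type} {P : Prob k F Pt ι Unit} (M : Obj P V) (c : k) {u : Pt → V}
    (hu : u ∈ M.U) : (fun p => algebraMap k F c • u p) ∈ M.U := by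
  rw [← act_alg]
  exact M.stab _ (P.B.algebraMap_mem c) u hu

/-- An object of a problem with one peak. -/
def mkObj {ι : Type} (P : Prob k F Pt ι Unit) (U : AddSubgroup (Pt → V))
    (h : ∀ b ∈ P.B, ∀ u ∈ U, act b u ∈ U) : Obj P V where
  ε _ := LinearMap.id
  orth _ _ h := (h rfl).elim
  sum := by simp
  U := U
  peak _ _ _ := rfl
  stab := h

theorem isHom_iff {ι : Type} {P : Prob k F Pt ι Unit} (M : Obj P V) (g : V →ₗ[F] V) :
    M.IsHom M g ↔ ∀ u ∈ M.U, (fun p => g (u p)) ∈ M.U :=
  ⟨fun h => h.2, fun h => ⟨fun o => by rw [eps_id]; rfl, h⟩⟩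

theorem bnd_of_eq {ι ι' : Type} {P : Prob k F Pt ι Unit} {P' : Prob k F Pt ι' Unit}
    (h : P.B = P'.B) (hb : P.Bnd) : P'.Bnd := by
  obtain ⟨c, hc⟩ := hb
  refine ⟨c, fun V _ _ _ M hM => hc V (mkObj P M.U (h ▸ M.stab)) ⟨hM.1, fun e he => ?_⟩⟩
  exact hM.2 e ((isHom_iff M e).2 he.2)

end act

section bc
variable {k F k' F' Pt : Type} [Field k] [Field F] [Field k'] [Field F'] [Algebra k F]
  [Algebra k' F'] [Algebra F F'] [Algebra k k'] [Algebra k F'] [IsScalarTower k F F']
  [IsScalarTower k k' F'] [Fintype Pt] [DecidableEq Pt]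

variable (k' F') in
/-- The base change of an algebra of matrices. -/
def bc (B : Subalgebra k (Matrix Pt Pt F)) : Subalgebra k' (Matrix Pt Pt F') :=
  Algebra.adjoin k' ((fun b : Matrix Pt Pt F => b.map (algebraMap F F')) '' B)

theorem mem_bc {B : Subalgebra k (Matrix Pt Pt F)} {b : Matrix Pt Pt F} (hb : b ∈ B) :
    b.map (algebraMap F F') ∈ bc k' F' B := Algebra.subset_adjoin ⟨b, hb, rfl⟩

theorem stab_bc {B : Subalgebra k (Matrix Pt Pt F)} {V : Type} [AddCommGroup V] [Module F V]
    [Module F' V] [IsScalarTower F F' V] (U : AddSubgroup (Pt → V))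
    (h1 : ∀ b ∈ B, ∀ u ∈ U, act b u ∈ U)
    (h2 : ∀ c : k', ∀ u ∈ U, (fun p => algebraMap k' F' c • u p) ∈ U) :
    ∀ b ∈ bc k' F' B, ∀ u ∈ U, act b u ∈ U := by
  intro b hb
  induction hb using Algebra.adjoin_induction with
  | mem x hx =>
    obtain ⟨b, hb, rfl⟩ := hx
    intro u hu
    rw [act_map]
    exact h1 b hb u hu
  | algebraMap c =>
    intro u hu
    rw [act_alg]
    exact h2 c u hu
  | add x y _ _ hx hy =>
    intro u hu
    rw [act_add]
    exact U.add_mem (hx u hu) (hy u hu)
  | mul x y _ _ hx hy =>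
    intro u hu
    rw [act_mul]
    exact hx _ (hy u hu)

theorem fr_le {V V' : Type} [AddCommGroup V] [Module F V] [AddCommGroup V'] [Module F V']
    [Module F' V'] [IsScalarTower F F' V'] [FiniteDimensional F F'] [FiniteDimensional F' V']
    (e : V' →ₗ[F'] V') (i : V →ₗ[F] V') (h : ∀ v, e (i v) = 0 → v = 0) :
    finrank F V ≤ finrank F F' * finrank F' (LinearMap.range e) := by
  have hinj : Injective ((e.rangeRestrict.restrictScalars F) ∘ₗ i) := by
    rw [injective_iff_map_eq_zero]
    exact fun v hv => h v (congrArg Subtype.val hv)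
  have : Module.Finite F (LinearMap.range e) := Module.Finite.trans F' _
  rw [Module.finrank_mul_finrank F F' (LinearMap.range e)]
  exact LinearMap.finrank_le_finrank_of_injective hinj

theorem bnd_bc (h2 : SKS2) (hd : SDec) [FiniteDimensional k F] [FiniteDimensional F F']
    (lam : F' →ₗ[F] F) (l1 : lam 1 = 1)
    (l2 : ∀ c : k', ∃ c0 : k, lam (algebraMap k' F' c) = algebraMap k F c0)
    (B : Subalgebra k (Matrix Pt Pt F)) (hb : (Prob.triv (bc k' F' B)).Bnd) :
    (Prob.triv B).Bnd := by
  obtain ⟨c, hc⟩ := hb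
  refine ⟨finrank F F' * c, fun V _ _ _ M hM => ?_⟩
  let i : V →ₗ[F] F' ⊗[F] V := TensorProduct.mk F F' V 1
  let r : F' ⊗[F] V →ₗ[F] V := (TensorProduct.lid F V).toLinearMap ∘ₗ LinearMap.rTensor V lam
  have hr : ∀ (a : F') (v : V), r (a • i v) = lam a • v := fun a v => by
    simp [r, i, TensorProduct.smul_tmul']
  let U : AddSubgroup (Pt → F' ⊗[F] V) :=
    { carrier := {w | ∀ a : k', (fun p => r (algebraMap k' F' a • w p)) ∈ M.U}
      add_mem' := fun {x y} hx hy a => by
        have := M.U.add_mem (hx a) (hy a)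
        convert this using 1
        ext p
        simp
      zero_mem' := fun a => by
        have := M.U.zero_mem
        convert this using 1
        ext p
        simp
      neg_mem' := fun {x} hx a => by
        have := M.U.neg_mem (hx a)
        convert this using 1
        ext p
        simp }
  have hU : ∀ b ∈ bc k' F' B, ∀ u ∈ U, act b u ∈ U := by
    refine stab_bc U (fun b hb u hu a => ?_) fun a' u hu a => ?_
    · have := M.stab b hb _ (hu a)
      convert this using 1
      ext q
      simp only [act, Finset.smul_sum, map_sum]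
      refine Finset.sum_congr rfl fun p _ => ?_
      rw [smul_comm, map_smul]
    · have := hu (a * a')
      simpa only [map_mul, mul_smul] using this
  let M' : Obj (Prob.triv (bc k' F' B)) (F' ⊗[F] V) := mkObj _ U hU
  have hi : ∀ u ∈ M.U, (fun p => i (u p)) ∈ U := fun u hu a => by
    obtain ⟨c0, e⟩ := l2 a
    simp only [hr, e]
    exact smul_mem_U M c0 hu
  have hrU : ∀ w ∈ U, (fun p => r (w p)) ∈ M.U := fun w hw => by simpa using hw 1
  obtain ⟨n, e, he, -, -, hsum, hind⟩ := hd k' F' Pt Unit Unit _ _ M'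
  let R : Subring (End F V) :=
    { carrier := {g | ∀ u ∈ M.U, (fun p => g (u p)) ∈ M.U}
      mul_mem' := fun {x y} hx hy u hu => hx _ (hy u hu)
      one_mem' := fun u hu => hu
      add_mem' := fun {x y} hx hy u hu => M.U.add_mem (hx u hu) (hy u hu)
      zero_mem' := fun u _ => M.U.zero_mem
      neg_mem' := fun {x} hx u hu => M.U.neg_mem (hx u hu) }
  obtain ⟨a1, a2, -, -⟩ := h2 k F V R (fun c0 u hu => smul_mem_U M c0 hu)
    fun x hx hxx => hM.2 x ((isHom_iff M x).2 hx) hxx
  let f : Fin n → End F V := fun s => r ∘ₗ (e s).restrictScalars F ∘ₗ i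
  have hf : ∀ s, f s ∈ R := fun s u hu => hrU _ ((he s).2 _ (hi u hu))
  have hfs : ∑ s, f s = 1 := by
    ext v
    have h1 := LinearMap.congr_fun hsum (i v)
    have h2 := hr 1 v
    rw [one_smul, l1, one_smul] at h2
    rw [LinearMap.sum_apply] at h1 ⊢
    change ∑ s, r (e s (i v)) = v
    rw [← map_sum, h1]
    exact h2
  have hex : ∃ s, ¬ IsNilpotent (f s) := by
    by_contra hn
    push Not at hn
    have : ∀ t : Finset (Fin n), IsNilpotent (∑ s ∈ t, f s) := fun t => by
      induction t using Finset.induction_on with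
      | empty => simp
      | insert a t ha ih =>
        rw [Finset.sum_insert ha]
        exact a2 _ (hf a) _ (R.sum_mem fun s _ => hf s) (hn a) ih
    have h1 := this Finset.univ
    rw [hfs] at h1
    have := hM.1
    exact not_isNilpotent_one h1
  obtain ⟨s, hs⟩ := hex
  obtain ⟨y, -, hy, -⟩ := (a1 _ (hf s)).resolve_left hs
  refine (fr_le (e s) i fun v h1 => ?_).trans (Nat.mul_le_mul_left _ (hc _ _ (hind s)))
  have h2 := LinearMap.congr_fun hy v
  change y (r (e s (i v))) = v at h2
  rw [h1, map_zero, map_zero] at h2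
  exact h2.symm

theorem conn_bc {C0 : Type} [CommRing C0] [Algebra C0 F] [Algebra C0 F'] [IsScalarTower C0 F F']
    [Module.Finite k k'] [Algebra.IsSeparable k k']
    (hgen : ∀ S : Subalgebra F F', (∀ c : k', algebraMap k' F' c ∈ S) → S = ⊤)
    (B : Subalgebra k (Matrix Pt Pt F)) (h : Conn C0 (B : Set (Matrix Pt Pt F))) :
    Conn C0 (bc k' F' B : Set (Matrix Pt Pt F')) := by
  intro V _ _ _ _ _ hcomp U hU hK n
  let _ : Module F V := Module.compHom V (algebraMap F F')
  have hs : ∀ (a : F) (x : V), a • x = algebraMap F F' a • x := fun _ _ => rfl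
  have : IsScalarTower F F' V := ⟨fun a b x => by rw [hs, Algebra.smul_def, mul_smul]⟩
  have : SMulCommClass F (H83.K C0) V := ⟨fun a c x => by rw [hs, hs, smul_comm]⟩
  obtain ⟨D, hD1, hD2⟩ := h V (fun c x => by
      rw [hcomp, hs, ← IsScalarTower.algebraMap_apply]) U
    (fun b hb u hu => by rw [← act_map (F' := F')]; exact hU _ (mem_bc hb) u hu) hK n
  have hk : ∀ (c : k') (u : Pt → V), u ∈ U → (fun p => algebraMap k' F' c • u p) ∈ U :=
    fun c u hu => by
      rw [← act_alg]
      exact hU _ ((bc k' F' B).algebraMap_mem c) u hu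
  have : Algebra.FormallyUnramified k k' := Algebra.FormallyUnramified.of_isSeparable k k'
  let φ : k' →+ k' →+ (V →+ V) := AddMonoidHom.mk' (fun a => AddMonoidHom.mk' (fun b =>
    AddMonoidHom.mk' (fun x => algebraMap k' F' a • D (algebraMap k' F' b • x))
      (fun x y => by simp)) (fun b b' => by ext x; simp [add_smul]))
    (fun a a' => by ext b x; simp [add_smul])
  have hφ : ∀ a b x, φ a b x = algebraMap k' F' a • D (algebraMap k' F' b • x) := fun _ _ _ => rfl
  have hkk : ∀ (c : k) (a : k') (x : V),
      algebraMap k' F' (c • a) • x = algebraMap k F c • algebraMap k' F' a • x := fun c a x => by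
    rw [hs, Algebra.smul_def, map_mul, mul_smul, ← IsScalarTower.algebraMap_apply,
      ← IsScalarTower.algebraMap_apply]
  let Φ : k' ⊗[k] k' →+ (V →+ V) := TensorProduct.liftAddHom φ fun c a b => by
    ext x
    rw [hφ, hφ, hkk, hkk, D.map_smul, smul_comm]
  have hΦ : ∀ a b x, Φ (a ⊗ₜ b) x = algebraMap k' F' a • D (algebraMap k' F' b • x) :=
    fun _ _ _ => rfl
  have p1 : ∀ t (a : F) x, Φ t (a • x) = a • Φ t x := fun t a x => by
    induction t using TensorProduct.induction_on with
    | zero => simp
    | tmul b c => rw [hΦ, hΦ, smul_comm _ a, map_smul, smul_comm _ a]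
    | add s t hs ht => simp [hs, ht]
  have p2 : ∀ t (c : k') x, Φ ((1 ⊗ₜ c) * t) x = Φ t (algebraMap k' F' c • x) := fun t c x => by
    induction t using TensorProduct.induction_on with
    | zero => simp
    | tmul a b =>
      rw [Algebra.TensorProduct.tmul_mul_tmul, hΦ, hΦ, one_mul, mul_comm, map_mul, mul_smul]
    | add s t hs ht => simp [mul_add, hs, ht]
  have p3 : ∀ t (c : k') x, Φ ((c ⊗ₜ 1) * t) x = algebraMap k' F' c • Φ t x := fun t c x => by
    induction t using TensorProduct.induction_on with
    | zero => simp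
    | tmul a b => rw [Algebra.TensorProduct.tmul_mul_tmul, hΦ, hΦ, one_mul, map_mul, mul_smul]
    | add s t hs ht => simp [mul_add, hs, ht]
  have p4 : ∀ t (c : H83.K C0) x, Φ t (c • x) =
      algebraMap k' F' (Algebra.TensorProduct.lmul' k t) • H83.H.thK n c • x + c • Φ t x :=
    fun t c x => by
      induction t using TensorProduct.induction_on with
      | zero => simp
      | tmul a b =>
        rw [hΦ, hΦ, smul_comm _ c, hD1, smul_add, Algebra.TensorProduct.lmul'_apply_tmul, map_mul,
          mul_smul, smul_comm _ c, smul_comm (algebraMap k' F' b)]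
      | add s t hs ht =>
        simp only [map_add, AddMonoidHom.add_apply, hs, ht, add_smul, smul_add]
        abel
  have p5 : ∀ t, ∀ u ∈ U, (fun p => Φ t (u p)) ∈ U := fun t u hu => by
    induction t using TensorProduct.induction_on with
    | zero =>
      have := U.zero_mem
      convert this using 1
      ext p
      simp
    | tmul a b => exact hk a _ (hD2 _ (hk b u hu))
    | add s t hs ht =>
      have := U.add_mem hs ht
      convert this using 1
      ext p
      simp
  let T := Φ (Algebra.FormallyUnramified.elem k k')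
  let S : Subalgebra F F' :=
    { carrier := {a | ∀ x, T (a • x) = a • T x}
      mul_mem' := fun {a b} ha hb x => by rw [mul_smul, ha, hb, mul_smul]
      add_mem' := fun {a b} ha hb x => by rw [add_smul, map_add, ha, hb, add_smul]
      algebraMap_mem' := fun a x => p1 _ a x }
  have hS : S = ⊤ := hgen S fun c x => by
    change Φ _ _ = _ • Φ _ _
    rw [← p2, Algebra.FormallyUnramified.one_tmul_mul_elem, p3]
  have hlin : ∀ (a : F') x, T (a • x) = a • T x := fun a => by
    have : a ∈ S := hS ▸ Algebra.mem_top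
    exact this
  refine ⟨{ toFun := T, map_add' := T.map_add, map_smul' := hlin }, fun c x => ?_, p5 _⟩
  change Φ _ _ = _ + c • Φ _ _
  rw [p4, Algebra.FormallyUnramified.lmul_elem, map_one, one_smul]

end bc

end Pool.Agent.MP_bd94e8_al.H89.RawA
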