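import Pool.Agent.MP_bd94e8_al.H44B.RawC

/-!
A new idempotent after base change.
-/

set_option autoImplicit false
set_option linter.unusedSectionVars false

namespace Pool.Agent.MP_bd94e8_al.H89.RawA

open Module Function Polynomial Matrix

section
variable {F F' Pt : Type} [Field F] [Field F'] [Algebra F F'] [Fintype Pt] [DecidableEq Pt]

theorem nil_vec (n : Matrix Pt Pt F) (N : ℕ) (v : Pt → F) (hv : v ≠ 0) (h : n ^ N *ᵥ v = 0) :
    ∃ j, n ^ j *ᵥ v ≠ 0 ∧ n *ᵥ (n ^ j *ᵥ v) = 0 := by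
  induction N with
  | zero => exact (hv (by simpa using h)).elim
  | succ N ih =>
    by_cases h' : n ^ N *ᵥ v = 0
    · exact ih h'
    · exact ⟨N, h', by rw [mulVec_mulVec, ← pow_succ', h]⟩

theorem comm_aeval {k R : Type} [CommRing k] [Ring R] [Algebra k R] {e b : R} (h : Commute e b)
    (p : k[X]) : Commute e (aeval b p) := by
  induction p using Polynomial.induction_on' with
  | add p q hp hq => rw [map_add]; exact hp.add_right hq
  | monomial n a =>
    rw [aeval_monomial]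
    exact Commute.mul_right (Algebra.commutes a e).symm (h.pow_right n)

theorem free0 {g : F[X]} (hm : g.Monic) (hi : Irreducible g) {b : Matrix Pt Pt F} {v : Pt → F}
    (hv : v ≠ 0) (h : aeval b g *ᵥ v = 0) {p : F[X]} (hp : p ≠ 0)
    (hd : p.natDegree < g.natDegree) : aeval b p *ᵥ v ≠ 0 := by
  intro h0
  obtain ⟨u, w, e⟩ := hi.coprime_iff_not_dvd.2 (hm.not_dvd_of_natDegree_lt hp hd)
  apply hv
  have := congrArg (fun q => aeval b q *ᵥ v) e
  simp only [map_add, map_mul, map_one, add_mulVec, ← mulVec_mulVec, h, h0, mulVec_zero, add_zero,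
    one_mulVec] at this
  exact this.symm

theorem map_mv (a : Matrix Pt Pt F) (v : Pt → F) :
    a.map (algebraMap F F') *ᵥ (algebraMap F F' ∘ v) = algebraMap F F' ∘ (a *ᵥ v) := by
  ext q
  simp [mulVec, dotProduct]

theorem free1 {g : F[X]} (hm : g.Monic) (hi : Irreducible g) {b : Matrix Pt Pt F} {v : Pt → F}
    (hv : v ≠ 0) (h : aeval b g *ᵥ v = 0) {p : F'[X]} (hp : p ≠ 0)
    (hd : p.natDegree < g.natDegree) :
    aeval (b.map (algebraMap F F')) p *ᵥ (algebraMap F F' ∘ v) ≠ 0 := by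
  intro h0
  obtain ⟨μ, hμ⟩ := Module.Projective.exists_dual_ne_zero F (leadingCoeff_ne_zero.2 hp)
  let p0 : F[X] := ∑ j ∈ Finset.range g.natDegree, monomial j (μ (p.coeff j))
  have hc : ∀ j < g.natDegree, p0.coeff j = μ (p.coeff j) := fun j hj => by
    simp [p0, coeff_monomial, hj]
  have hd0 : p0.natDegree < g.natDegree := by
    have h1 : p0.natDegree ≤ g.natDegree - 1 :=
      natDegree_sum_le_of_forall_le _ _ fun j hj => (natDegree_monomial_le _).trans (by
        have := Finset.mem_range.1 hj; omega)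
    omega
  refine free0 hm hi hv h (p := p0) (fun e => hμ ?_) hd0 ?_
  · rw [leadingCoeff, ← hc _ hd, e, coeff_zero]
  · ext q
    have h1 := congrArg μ (congrFun h0 q)
    rw [aeval_eq_sum_range' hd, sum_mulVec, Finset.sum_apply, map_sum, Pi.zero_apply,
      map_zero] at h1
    rw [aeval_eq_sum_range' hd0, sum_mulVec, Finset.sum_apply, Pi.zero_apply, ← h1]
    refine Finset.sum_congr rfl fun j hj => ?_
    have h2 : b.map (algebraMap F F') ^ j = (b ^ j).map (algebraMap F F') :=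
      (map_pow (algebraMap F F').mapMatrix b j).symm
    rw [hc j (Finset.mem_range.1 hj), smul_mulVec, smul_mulVec, h2, map_mv, Pi.smul_apply,
      Pi.smul_apply, Function.comp_apply, smul_eq_mul, smul_eq_mul, mul_comm (p.coeff j),
      ← Algebra.smul_def, map_smul, smul_eq_mul, mul_comm]

end

section
variable {k F k' F' Pt : Type} [Field k] [Field F] [Field k'] [Field F'] [Algebra k F]
  [Algebra k' F'] [Algebra F F'] [Algebra k k'] [Algebra k F'] [IsScalarTower k F F']
  [IsScalarTower k k' F'] [Fintype Pt] [DecidableEq Pt]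

theorem new_idem (B : Subalgebra k (Matrix Pt Pt F)) {e b : Matrix Pt Pt F} (he : e ∈ B)
    (hee : e * e = e) (h0 : e ≠ 0) (hb : b ∈ B) (e1 : e * b = b) (e2 : b * e = b) {g : k[X]}
    (hm : g.Monic) (hi : Irreducible (g.map (algebraMap k F))) (hs : g.Separable)
    (h2 : 2 ≤ g.natDegree) (hn : IsNilpotent (aeval b g * e)) (θ : k') (hθ : aeval θ g = 0) :
    ∃ x ∈ bc k' F' B, x * x = x ∧ e.map (algebraMap F F') * x = x ∧
      x * e.map (algebraMap F F') = x ∧ x ≠ 0 ∧ x ≠ e.map (algebraMap F F') := by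
  have hc : Commute e b := e1.trans e2.symm
  have hcg := comm_aeval hc g
  obtain ⟨N, hN⟩ := hn
  obtain ⟨v, hv, hev, hgv⟩ : ∃ v : Pt → F, v ≠ 0 ∧ e *ᵥ v = v ∧ aeval b g *ᵥ v = 0 := by
    obtain ⟨v0, hv0⟩ := exists_vec h0
    obtain ⟨j, a1, a2⟩ := nil_vec (aeval b g * e) N _ hv0 (by rw [hN, zero_mulVec])
    have a3 : e *ᵥ ((aeval b g * e) ^ j *ᵥ (e *ᵥ v0)) = (aeval b g * e) ^ j *ᵥ (e *ᵥ v0) := by
      rw [mulVec_mulVec, ((hcg.mul_right (Commute.refl e)).pow_right j).eq, ← mulVec_mulVec,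
        mulVec_mulVec v0, hee]
    exact ⟨_, a1, a3, by rw [← a3, mulVec_mulVec]; exact a2⟩
  let ψ : Matrix Pt Pt F →ₐ[k] Matrix Pt Pt F' := (IsScalarTower.toAlgHom k F F').mapMatrix
  have hψ : ∀ a, ψ a = a.map (algebraMap F F') := fun _ => rfl
  set e' := e.map (algebraMap F F') with he'
  set b' := b.map (algebraMap F F') with hb'
  set v' := algebraMap F F' ∘ v with hv'
  set g' := g.map (algebraMap k k') with hg'
  have hee' : e' * e' = e' := by rw [he', ← hψ, ← map_mul, hee]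
  have hc' : ∀ p : k'[X], Commute e' (aeval b' p) := comm_aeval (hc.map ψ)
  have hAg : aeval b' g' = ψ (aeval b g) := by
    rw [hg', aeval_map_algebraMap, hb', ← hψ, aeval_algHom_apply]
  have hev' : e' *ᵥ v' = v' := by rw [he', hv', map_mv, hev]
  have hgv' : aeval b' g' *ᵥ v' = 0 := by
    rw [hAg, hψ, hv', map_mv, hgv]
    ext q
    simp
  have hN' : aeval b' (g' ^ (N + 1)) * e' = 0 := by
    have h1 : (aeval b' g' * e') ^ (N + 1) = 0 := by
      rw [hAg, he', ← hψ, ← map_mul, ← map_pow, pow_succ, hN, zero_mul, map_zero]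
    rw [(hc' g').symm.mul_pow, IsIdempotentElem.pow_succ_eq N hee'] at h1
    rw [map_pow, h1]
  have hfree : ∀ p : k'[X], p ≠ 0 → p.natDegree < g.natDegree → aeval b' p *ᵥ v' ≠ 0 := by
    intro p hp hd
    rw [← aeval_map_algebraMap F' b' p]
    refine free1 (hm.map _) hi hv (by rw [aeval_map_algebraMap, hgv])
      ((Polynomial.map_ne_zero_iff (algebraMap k' F').injective).2 hp) ?_
    rwa [natDegree_map, natDegree_map]
  have hmem : ∀ p : k'[X], aeval b' p ∈ bc k' F' B := fun p =>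
    Algebra.adjoin_le (Set.singleton_subset_iff.2 (mem_bc hb)) (aeval_mem_adjoin_singleton k' b')
  have hkill : ∀ p q r : k'[X], p * q = r * g' → (aeval b' p * e') *ᵥ (aeval b' q *ᵥ v') = 0 := by
    intro p q r h
    rw [mulVec_mulVec, mul_assoc, (hc' q).eq, ← mul_assoc, ← map_mul, h, ← mulVec_mulVec, hev',
      map_mul, ← mulVec_mulVec, hgv', mulVec_zero]
  have hfix : ∀ q : k'[X], e' *ᵥ (aeval b' q *ᵥ v') = aeval b' q *ᵥ v' := fun q => by
    rw [mulVec_mulVec, (hc' q).eq, ← mulVec_mulVec, hev']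
  obtain ⟨h, hh⟩ : X - C θ ∣ g' := dvd_iff_isRoot.2 (by
    rw [hg', IsRoot, eval_map_algebraMap, hθ])
  have hg0 : g' ≠ 0 := (hm.map _).ne_zero
  have hh0 : h ≠ 0 := fun e => hg0 (by rw [hh, e, mul_zero])
  have hdeg : h.natDegree < g.natDegree := by
    have := congrArg natDegree hh
    rw [natDegree_mul (X_sub_C_ne_zero θ) hh0, natDegree_X_sub_C, hg', natDegree_map] at this
    omega
  have hcop : IsCoprime (X - C θ) h := Separable.isCoprime (hh ▸ hs.map)
  obtain ⟨u, w, huw⟩ := (hcop.pow (m := N + 1) (n := N + 1))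
  have hsum : aeval b' (u * (X - C θ) ^ (N + 1)) * e' + aeval b' (w * h ^ (N + 1)) * e' = e' := by
    rw [← add_mul, ← map_add, huw, map_one, one_mul]
  have hprod : aeval b' (w * h ^ (N + 1)) * e' * (aeval b' (u * (X - C θ) ^ (N + 1)) * e') = 0 := by
    rw [mul_assoc, ← mul_assoc e', (hc' _).eq, mul_assoc, hee', ← mul_assoc, ← map_mul,
      show w * h ^ (N + 1) * (u * (X - C θ) ^ (N + 1)) = w * u * g' ^ (N + 1) by
        rw [hh, mul_pow]; ring, map_mul, mul_assoc, hN', mul_zero]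
  have x2 : aeval b' (w * h ^ (N + 1)) * e' * e' = aeval b' (w * h ^ (N + 1)) * e' := by
    rw [mul_assoc, hee']
  refine ⟨aeval b' (w * h ^ (N + 1)) * e', Subalgebra.mul_mem _ (hmem _) (mem_bc he), ?_, ?_, x2,
    fun hx => ?_, fun hx => ?_⟩
  · have := congrArg (fun y => aeval b' (w * h ^ (N + 1)) * e' * y) hsum
    simp only [mul_add] at this
    rwa [hprod, zero_add, x2] at this
  · rw [← mul_assoc, (hc' _).eq, x2]
  · rw [hx, add_zero] at hsum
    apply hfree h hh0 hdeg
    rw [← hfix, ← hsum]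
    exact hkill _ _ (u * (X - C θ) ^ N) (by rw [hh]; ring)
  · apply hfree (X - C θ) (X_sub_C_ne_zero θ) (by rw [natDegree_X_sub_C]; omega)
    rw [← hfix, ← hx]
    exact hkill _ _ (w * h ^ N) (by rw [hh]; ring)

theorem Fam.bc {ι : Type} [Fintype ι] {B : Subalgebra k (Matrix Pt Pt F)}
    {e : ι → Matrix Pt Pt F} (h : Fam (B : Set (Matrix Pt Pt F)) e) :
    Fam (bc k' F' B : Set (Matrix Pt Pt F')) fun i => (e i).map (algebraMap F F') := by
  have hψ : ∀ a : Matrix Pt Pt F, a.map (algebraMap F F') = (algebraMap F F').mapMatrix a :=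
    fun _ => rfl
  refine ⟨fun i => mem_bc (h.mem i), fun i hi => h.ne i ?_, fun i => ?_, fun i j hij => ?_, ?_⟩
  · ext q p
    exact (algebraMap F F').injective (by simpa using congrFun (congrFun hi q) p)
  · simp only [hψ]
    rw [← map_mul, h.idem]
  · simp only [hψ]
    rw [← map_mul, h.orth i j hij, map_zero]
  · simp only [hψ]
    rw [← map_sum, h.sum, map_one]

end

end Pool.Agent.MP_bd94e8_al.H89.RawA
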